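import Pool.Agent.Helper63.PG.Alg

/-! # MODULE CLO3 of project PG: the colouring is on-line -/

set_option autoImplicit false

namespace Pool.Agent.Helper74.PG

open Pool.Agent.Helper63.PG Pool.Agent.Helper63.OC Pool.Agent.Helper24.OCM

theorem mono_pre_gen {α : Type*} {s : ℕ} (G : SimpleGraph ℕ) (c c' : ℕ → α)
    (h : ∀ v ≤ s, c' v = c v) : mono (pre G s) c' = pre (mono G c) s := by
  ext a b
  show (a ≤ s ∧ b ≤ s ∧ G.Adj a b) ∧ c' a = c' b ↔ a ≤ s ∧ b ≤ s ∧ (G.Adj a b ∧ c a = c b)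
  constructor
  · rintro ⟨⟨h1, h2, h3⟩, h4⟩
    rw [h _ h1, h _ h2] at h4
    exact ⟨h1, h2, h3, h4⟩
  · rintro ⟨h1, h2, h3, h4⟩
    refine ⟨⟨h1, h2, h3⟩, ?_⟩
    rw [h _ h1, h _ h2]
    exact h4

theorem kc_pre {k : ℕ} {G : SimpleGraph ℕ} {s τ : ℕ} (h : τ ≤ s) :
    kc k (pre G s) τ = kc k G τ := by
  unfold kc
  rw [pre_pre h]

theorem adj_pre' {G : SimpleGraph ℕ} {s v w : ℕ} (hv : v ≤ s) (hw : w ≤ s) :
    (pre G s).Adj v w ↔ G.Adj v w := ⟨fun h => h.2.2, fun h => ⟨hv, hw, h⟩⟩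

theorem lay_pre {G : SimpleGraph ℕ} {s x τ v : ℕ} (hτ : τ ≤ s) (hv : v ≤ s) :
    lay (pre G s) x τ v = lay G x τ v := by
  unfold lay
  congr 1
  ext r
  simp only [Set.mem_setOf_eq]
  constructor
  · rintro ⟨w, h1, h2, h3⟩
    exact ⟨w, h1, h2.2.2, (nr_pre hτ).1 h3⟩
  · rintro ⟨w, h1, h2, h3⟩
    exact ⟨w, h1, ⟨hv, h1.trans hτ, h2⟩, (nr_pre hτ).2 h3⟩

theorem cc_pre {k : ℕ} {G : SimpleGraph ℕ} {s x τ v : ℕ} (hτ : τ ≤ s) (hv : v ≤ s) :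
    cc k (pre G s) x τ v = cc k G x τ v := by
  unfold cc
  rw [lay_pre hτ hv, kc_pre hτ]
  congr 1
  ext r
  simp only [Set.mem_setOf_eq]
  constructor
  · rintro ⟨w, h1, h2, h3, h4⟩
    exact ⟨w, h1, h2.2.2, (nr_pre hτ).1 h3, h4⟩
  · rintro ⟨w, h1, h2, h3, h4⟩
    exact ⟨w, h1, ⟨hv, h1.trans hτ, h2⟩, (nr_pre hτ).2 h3, h4⟩

theorem TT_pre {k : ℕ} {G : SimpleGraph ℕ} {s x τ v : ℕ} (hτ : τ ≤ s) (hv : v ≤ s) :
    TT k (pre G s) x τ v = TT k G x τ v := by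
  unfold TT
  rw [lay_pre hτ hv, kc_pre hτ, cc_pre hτ hv]
  ext w
  simp only [Set.mem_setOf_eq]
  constructor
  · rintro ⟨h1, h2, h3, h4⟩
    exact ⟨h1, h2.2.2, (nr_pre hτ).1 h3, h4⟩
  · rintro ⟨h1, h2, h3, h4⟩
    exact ⟨h1, ⟨hv, h1.trans hτ, h2⟩, (nr_pre hτ).2 h3, h4⟩

theorem hCLO3 (K k : ℕ)
    (hl1 : ∀ (G : SimpleGraph ℕ) (s : ℕ), (∀ v ≤ s, anc K (pre G s) v = anc K G v) ∧
      (∀ v ≤ s, lab1 K (pre G s) v = lab1 K G v))
    (hl2 : ∀ (H : SimpleGraph ℕ) (s : ℕ), (∀ v ≤ s, (hasp (pre H s) v ↔ hasp H v)) ∧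
      (∀ v ≤ s, tau (pre H s) v = tau H v) ∧ (∀ v ≤ s, lab2 (pre H s) v = lab2 H v))
    (hV : ∀ (G : SimpleGraph ℕ) v, hasp (H1 K G) v → Vs K k G v)
    (hD : ∀ (G : SimpleGraph ℕ) u v, (G3 K k G).Adj u v →
      hasp (H1 K G) u ∧ hasp (H1 K G) v) :
    ∀ (w : ℕ) (G : SimpleGraph ℕ) (s t : ℕ), t ≤ s → col K k w (pre G s) t = col K k w G t := by
  have hH1 : ∀ (G : SimpleGraph ℕ) (s : ℕ), H1 K (pre G s) = pre (H1 K G) s := fun G s =>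
    mono_pre_gen G _ _ (hl1 G s).2
  have htt : ∀ (G : SimpleGraph ℕ) (s v : ℕ), v ≤ s → tt K (pre G s) v = tt K G v := by
    intro G s v hv
    unfold tt
    rw [hH1, (hl2 _ s).2.1 v hv]
  have hlab : ∀ (G : SimpleGraph ℕ) (s v : ℕ), v ≤ s → lab K k (pre G s) v = lab K k G v := by
    intro G s v hv
    unfold lab
    rw [(hl1 G s).2 v hv, hH1, (hl2 _ s).2.2 v hv]
    by_cases hp : hasp (H1 K G) v
    · have hp' : hasp (pre (H1 K G) s) v := ((hl2 _ s).1 v hv).2 hp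
      have hτ : tt K G v ≤ s := (hV G v hp).ttlt.le.trans hv
      rw [if_pos hp, if_pos hp', htt G s v hv, (hl1 G s).1 v hv, lay_pre hτ hv, cc_pre hτ hv]
    · have hp' : ¬ hasp (pre (H1 K G) s) v := fun h => hp (((hl2 _ s).1 v hv).1 h)
      rw [if_neg hp, if_neg hp']
  have hG3 : ∀ (G : SimpleGraph ℕ) (s : ℕ), G3 K k (pre G s) = pre (G3 K k G) s := fun G s =>
    mono_pre_gen G _ _ (hlab G s)
  have hTT : ∀ (G : SimpleGraph ℕ) (s v : ℕ), v ≤ s → hasp (H1 K G) v →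
      TT k (pre G s) (anc K (pre G s) v) (tt K (pre G s) v) v =
      TT k G (anc K G v) (tt K G v) v := by
    intro G s v hv hp
    have hτ : tt K G v ≤ s := (hV G v hp).ttlt.le.trans hv
    rw [(hl1 G s).1 v hv, htt G s v hv, TT_pre hτ hv]
  have hGm : ∀ (G : SimpleGraph ℕ) (s : ℕ), Gm K k (pre G s) = pre (Gm K k G) s := by
    intro G s
    ext u v
    show ((G3 K k (pre G s)).Adj u v ∧ ∃ w,
        w ∈ TT k (pre G s) (anc K (pre G s) u) (tt K (pre G s) u) u ∧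
        w ∈ TT k (pre G s) (anc K (pre G s) v) (tt K (pre G s) v) v) ↔
      u ≤ s ∧ v ≤ s ∧ ((G3 K k G).Adj u v ∧ ∃ w, w ∈ TT k G (anc K G u) (tt K G u) u ∧
        w ∈ TT k G (anc K G v) (tt K G v) v)
    rw [hG3]
    constructor
    · rintro ⟨⟨h1, h2, h3⟩, w, h4, h5⟩
      obtain ⟨hu, hv⟩ := hD G u v h3
      rw [hTT G s u h1 hu] at h4
      rw [hTT G s v h2 hv] at h5
      exact ⟨h1, h2, h3, w, h4, h5⟩
    · rintro ⟨h1, h2, h3, w, h4, h5⟩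
      obtain ⟨hu, hv⟩ := hD G u v h3
      refine ⟨⟨h1, h2, h3⟩, w, ?_, ?_⟩
      · rw [hTT G s u h1 hu]
        exact h4
      · rw [hTT G s v h2 hv]
        exact h5
  intro w
  induction w with
  | zero =>
    intro G s t _
    rfl
  | succ w ih =>
    rcases w with _ | w
    · intro G s t _
      rfl
    · intro G s t ht
      rw [col, col, hGm, hG3, hlab G s t ht, ih _ s t ht,
        mono_pre_gen (G3 K k G) (col K k (w + 1) (Gm K k G)) (col K k (w + 1) (pre (Gm K k G) s))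
          (fun v hv => ih _ s v hv), fcol_pre k _ s t ht]

end Pool.Agent.Helper74.PG
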