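import Pool.Agent.Helper63.PG.Alg

/-! # MODULE NUM of project PG: the numerical estimate -/

set_option autoImplicit false

namespace Pool.Agent.Helper74.PG

open Pool.Agent.Helper63.PG Pool.Agent.Helper63.OC Pool.Agent.Helper24.OCM

theorem rr_eq (i : ℕ) : 2 * rr i + 1 = 7 ^ i := by
  induction i with
  | zero => rfl
  | succ i ih =>
    rw [rr, pow_succ, ← ih]
    ring

theorem base_le (k N d : ℕ) (hd : d ≤ N + 1) :
    d * N * (4 * (2 ^ d) ^ 2) * (N + 1) * rr d * (k + 1) * (2 * N) ^ (k - 1) ≤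
      (4 * (k + 1) * 2 ^ k) * (N + 1) ^ (k + 3) * 32 ^ d := by
  have h1 : (2 * N) ^ (k - 1) ≤ 2 ^ k * (N + 1) ^ k := by
    rw [← mul_pow]
    calc (2 * N) ^ (k - 1) ≤ (2 * (N + 1)) ^ (k - 1) := Nat.pow_le_pow_left (by omega) _
      _ ≤ (2 * (N + 1)) ^ k := Nat.pow_le_pow_right (by omega) (by omega)
  have h2 : rr d ≤ 7 ^ d := by
    have := rr_eq d
    omega
  have h3 : (2 ^ d) ^ 2 * 7 ^ d ≤ 32 ^ d := by
    calc (2 ^ d) ^ 2 * 7 ^ d = 28 ^ d := by
          rw [← pow_mul, mul_comm d 2, pow_mul, ← mul_pow]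
          norm_num
      _ ≤ 32 ^ d := Nat.pow_le_pow_left (by norm_num) _
  calc d * N * (4 * (2 ^ d) ^ 2) * (N + 1) * rr d * (k + 1) * (2 * N) ^ (k - 1)
      ≤ (N + 1) * (N + 1) * (4 * (2 ^ d) ^ 2) * (N + 1) * 7 ^ d * (k + 1) *
        (2 ^ k * (N + 1) ^ k) := by gcongr; omega
    _ = (4 * (k + 1) * 2 ^ k) * (N + 1) ^ (k + 3) * ((2 ^ d) ^ 2 * 7 ^ d) := by ring
    _ ≤ _ := by gcongr

theorem evt (k : ℕ) : ∀ᶠ x : ℝ in Filter.atTop,
    ((4 * (k + 1) * 2 ^ k) * 4 ^ (k + 3) * Real.exp 9) * x ^ (2 * (k + 3)) ≤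
      Real.exp (1 / 2 * x) := by
  have hC : (0 : ℝ) < (4 * (k + 1) * 2 ^ k) * 4 ^ (k + 3) * Real.exp 9 := by positivity
  have h := (isLittleO_pow_exp_pos_mul_atTop (k := 2 * (k + 3)) (b := 1 / 2)
    (by norm_num)).bound (inv_pos.2 hC)
  filter_upwards [h, Filter.eventually_ge_atTop 0] with x hx hx0
  rw [Real.norm_of_nonneg (by positivity), Real.norm_of_nonneg (Real.exp_pos _).le] at hx
  calc _ ≤ ((4 * (k + 1) * 2 ^ k) * 4 ^ (k + 3) * Real.exp 9) *
        (((4 * (k + 1) * 2 ^ k) * 4 ^ (k + 3) * Real.exp 9)⁻¹ * Real.exp (1 / 2 * x)) := by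
        gcongr
    _ = _ := by
        rw [← mul_assoc, mul_inv_cancel₀ hC.ne', one_mul]

theorem hNUM (k : ℕ) : ∃ N0 : ℕ, ∀ n : ℕ, N0 ≤ n →
    n ≤ (2 ^ (Nat.sqrt (Nat.log 2 n + 1) + 1)) ^ (Nat.sqrt (Nat.log 2 n + 1) + 1) ∧
    ((((Nat.sqrt (Nat.log 2 n + 1) + 1) * (Nat.log 2 n + 1) *
      (4 * (2 ^ (Nat.sqrt (Nat.log 2 n + 1) + 1)) ^ 2) * (Nat.log 2 n + 2) *
      rr (Nat.sqrt (Nat.log 2 n + 1) + 1) * (k + 1) *
        (2 * (Nat.log 2 n + 1)) ^ (k - 1)) ^ (k - 1) : ℕ) : ℝ) ≤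
      Real.exp (5 * k * Real.sqrt (Real.log n)) := by
  have htend : Filter.Tendsto (fun n : ℕ => Real.sqrt (Real.log n)) Filter.atTop Filter.atTop :=
    Real.tendsto_sqrt_atTop.comp (Real.tendsto_log_atTop.comp tendsto_natCast_atTop_atTop)
  obtain ⟨N0, hN0⟩ := Filter.eventually_atTop.1
    ((htend.eventually (evt k)).and (htend.eventually (Filter.eventually_ge_atTop 1)))
  refine ⟨N0 + 2, fun n hn => ?_⟩
  obtain ⟨hev, hx1⟩ := hN0 n (by omega)
  constructor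
  · rw [← pow_mul]
    have h1 : n < 2 ^ (Nat.log 2 n + 1) := Nat.lt_pow_succ_log_self (by norm_num) n
    have h2 : Nat.log 2 n + 1 < (Nat.sqrt (Nat.log 2 n + 1) + 1) *
      (Nat.sqrt (Nat.log 2 n + 1) + 1) := Nat.lt_succ_sqrt _
    exact (h1.trans_le (Nat.pow_le_pow_right (by norm_num) h2.le)).le
  · set l := Nat.log 2 n with hl
    set s := Nat.sqrt (l + 1) with hs
    set x := Real.sqrt (Real.log n) with hx
    have hn0 : (0 : ℝ) < n := by
      have : 0 < n := by omega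
      exact_mod_cast this
    have hlogn : 0 ≤ Real.log n := Real.log_natCast_nonneg n
    have hxx : x ^ 2 = Real.log n := Real.sq_sqrt hlogn
    have hl2 : (l : ℝ) * Real.log 2 ≤ x ^ 2 := by
      rw [hxx, ← Real.log_pow]
      refine Real.log_le_log (by positivity) ?_
      exact_mod_cast Nat.pow_log_le_self 2 (by omega : n ≠ 0)
    have hg1 := Real.log_two_gt_d9
    have hg2 := Real.log_two_lt_d9
    have hl0 : (0 : ℝ) ≤ l := Nat.cast_nonneg l
    have hs0 : (0 : ℝ) ≤ s := Nat.cast_nonneg s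
    have hlx : (l : ℝ) ≤ 2 * x ^ 2 := by nlinarith
    have hss : (s : ℝ) ^ 2 ≤ l + 1 := by
      have : s ^ 2 ≤ l + 1 := Nat.sqrt_le' _
      exact_mod_cast this
    have hslog : (s : ℝ) * Real.log 2 ≤ 0.84 * x + 1 := by
      have h1 : ((s : ℝ) * Real.log 2) ^ 2 ≤ (0.84 * x + 1) ^ 2 := by
        calc ((s : ℝ) * Real.log 2) ^ 2 = (s : ℝ) ^ 2 * Real.log 2 ^ 2 := by ring
          _ ≤ (l + 1) * Real.log 2 ^ 2 := by gcongr
          _ = (l * Real.log 2) * Real.log 2 + Real.log 2 ^ 2 := by ring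
          _ ≤ x ^ 2 * Real.log 2 + Real.log 2 ^ 2 := by gcongr
          _ ≤ x ^ 2 * 0.7 + 1 := by nlinarith
          _ ≤ (0.84 * x + 1) ^ 2 := by nlinarith
      exact le_of_sq_le_sq h1 (by positivity)
    have hbase : ((((s + 1) * (l + 1) * (4 * (2 ^ (s + 1)) ^ 2) * (l + 2) * rr (s + 1) * (k + 1) *
        (2 * (l + 1)) ^ (k - 1) : ℕ)) : ℝ) ≤ Real.exp (5 * x) := by
      have h1 := base_le k (l + 1) (s + 1) (by
        have := Nat.sqrt_le_self (l + 1)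
        omega)
      have h2 : ((((s + 1) * (l + 1) * (4 * (2 ^ (s + 1)) ^ 2) * (l + 2) * rr (s + 1) * (k + 1) *
        (2 * (l + 1)) ^ (k - 1) : ℕ)) : ℝ) ≤
          (((4 * (k + 1) * 2 ^ k) * (l + 1 + 1) ^ (k + 3) * 32 ^ (s + 1) : ℕ) : ℝ) :=
        Nat.cast_le.2 h1
      refine h2.trans ?_
      push_cast
      have h3 : ((l : ℝ) + 1 + 1) ≤ 4 * x ^ 2 := by nlinarith
      have h4 : (32 : ℝ) ^ (s + 1) ≤ Real.exp 9 * Real.exp (4.2 * x) := by
        rw [← Real.exp_add]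
        have h5 : (32 : ℝ) ^ (s + 1) = Real.exp ((s + 1 : ℕ) * (5 * Real.log 2)) := by
          rw [Real.exp_nat_mul, mul_comm (5 : ℝ), ← Real.rpow_def_of_pos (by norm_num)]
          norm_num
        rw [h5]
        refine Real.exp_le_exp.2 ?_
        push_cast
        nlinarith
      calc (4 * ((k : ℝ) + 1) * 2 ^ k) * (l + 1 + 1) ^ (k + 3) * 32 ^ (s + 1)
          ≤ (4 * ((k : ℝ) + 1) * 2 ^ k) * (4 * x ^ 2) ^ (k + 3) *
            (Real.exp 9 * Real.exp (4.2 * x)) := by gcongr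
        _ = ((4 * ((k : ℝ) + 1) * 2 ^ k) * 4 ^ (k + 3) * Real.exp 9) * x ^ (2 * (k + 3)) *
            Real.exp (4.2 * x) := by
            rw [mul_pow, ← pow_mul]
            ring
        _ ≤ Real.exp (1 / 2 * x) * Real.exp (4.2 * x) := by gcongr
        _ ≤ Real.exp (5 * x) := by
            rw [← Real.exp_add]
            refine Real.exp_le_exp.2 ?_
            linarith
    rw [Nat.cast_pow]
    calc _ ≤ (Real.exp (5 * x)) ^ (k - 1) := pow_le_pow_left₀ (Nat.cast_nonneg _) hbase _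
      _ ≤ (Real.exp (5 * x)) ^ k := by
          refine pow_le_pow_right₀ ?_ (by omega)
          refine Real.one_le_exp ?_
          positivity
      _ = _ := by
          rw [← Real.exp_nat_mul]
          congr 1
          ring

end Pool.Agent.Helper74.PG
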